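import Mathlib

/-!
# For which entitlements does APS-fairness imply PROP1 (additive goods)?

`M` is the finite set of items, agent `i : Fin n` has the additive valuation given by the item
values `v i : M → ℝ`, `v i g ≥ 0`, and the entitlement `w i > 0`, `∑ i, w i = 1`. An allocation is
a map `A : M → Fin n`.

For every `n ≥ 2` and all entitlements `w`: every APS-fair allocation of every instance with these
entitlements is PROP1 if and only if `w i ≤ 1/2` for every agent `i`. In particular the implication
fails for `n = 2` and, say, the entitlements `9/10, 1/10`: let there be one item worth `2` and two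
items worth `1` for agent `1`. If the large item has the price `19/20`, then agent `1` can only buy
the other items, so her AnyPrice share is at most `2`, and the large item alone is enough; together
with another item it is worth `3 < 9/10 * 4`.
-/

set_option autoImplicit false

namespace Pool.Agent.Results.MP_4956c5_co.APSImpliesPROP1

open Finset

/-- The additive value of the set `S` of items when the single items have the values `u g`. -/
def val {M : Type} (u : M → ℝ) (S : Finset M) : ℝ := ∑ g ∈ S, u g

/-- The bundle of agent `i` in the allocation `A`. -/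
def bundle {M : Type} [Fintype M] {n : ℕ} (A : M → Fin n) (i : Fin n) : Finset M :=
  univ.filter (fun g => A g = i)

/-- `p` is a price vector: non-negative prices with total `1`. -/
def IsPrice {M : Type} [Fintype M] (p : M → ℝ) : Prop :=
  (∀ g, 0 ≤ p g) ∧ ∑ g, p g = 1

/-- `z` is the largest value of a set of items which costs at most `w` at the prices `p`. -/
def IsBestValue {M : Type} (u : M → ℝ) (w : ℝ) (p : M → ℝ) (z : ℝ) : Prop :=
  IsGreatest {x : ℝ | ∃ S : Finset M, ∑ g ∈ S, p g ≤ w ∧ val u S = x} z

/-- The AnyPrice share of an agent with item values `u` and entitlement `w`: the minimum over all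
price vectors of the largest value of an affordable set. -/
noncomputable def APS {M : Type} [Fintype M] (u : M → ℝ) (w : ℝ) : ℝ :=
  sInf {z : ℝ | ∃ p : M → ℝ, IsPrice p ∧ IsBestValue u w p z}

/-- The allocation `A` is APS-fair. -/
def APSFair {M : Type} [Fintype M] {n : ℕ} (w : Fin n → ℝ) (v : Fin n → M → ℝ)
    (A : M → Fin n) : Prop :=
  ∀ i, APS (v i) (w i) ≤ val (v i) (bundle A i)

/-- The allocation `A` is (weighted) PROP1. -/
def PROP1 {M : Type} [Fintype M] [DecidableEq M] {n : ℕ} (w : Fin n → ℝ) (v : Fin n → M → ℝ)
    (A : M → Fin n) : Prop :=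
  ∀ i, w i * val (v i) univ ≤ val (v i) (bundle A i) ∨
    ∃ g, g ∉ bundle A i ∧ w i * val (v i) univ ≤ val (v i) (insert g (bundle A i))

/-! ## The positive direction -/

/-- A greedy packing: some set of price at most `w` has value at least the fractional bound minus
the largest value of an item. -/
lemma greedy {M : Type} [DecidableEq M] (u p : M → ℝ) (h w : ℝ) (hw : 0 ≤ w) (h0 : 0 ≤ h) :
    ∀ O : Finset M, (∀ g ∈ O, 0 < u g) → (∀ g ∈ O, u g ≤ h) → (∀ g ∈ O, 0 ≤ p g) →
      w ≤ ∑ g ∈ O, p g →
      ∃ S ⊆ O, ∑ g ∈ S, p g ≤ w ∧ w * val u O ≤ (val u S + h) * ∑ g ∈ O, p g := by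
  intro O
  induction O using Finset.strongInduction with
  | H O ih =>
    intro hpos hh hp hwO
    rcases O.eq_empty_or_nonempty with rfl | hne
    · refine ⟨∅, Subset.refl _, ?_, ?_⟩
      · simpa using hw
      · simp [val]
    · obtain ⟨s, hs, hmax⟩ := exists_max_image O (fun g => p g / u g) hne
      have hcross : ∀ g ∈ O, p g * u s ≤ p s * u g := by
        intro g hg
        have := hmax g hg
        rw [div_le_div_iff₀ (hpos g hg) (hpos s hs)] at this
        linarith
      have hsumP : p s + ∑ g ∈ O.erase s, p g = ∑ g ∈ O, p g := add_sum_erase _ _ hs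
      have hsumV : u s + val u (O.erase s) = val u O := add_sum_erase _ _ hs
      have hV'0 : 0 ≤ val u (O.erase s) :=
        sum_nonneg fun g hg => (hpos g (mem_of_mem_erase hg)).le
      have hP'0 : 0 ≤ ∑ g ∈ O.erase s, p g :=
        sum_nonneg fun g hg => hp g (mem_of_mem_erase hg)
      by_cases hcase : w ≤ ∑ g ∈ O.erase s, p g
      · obtain ⟨S, hS, h1, h2⟩ := ih _ (erase_ssubset hs)
          (fun g hg => hpos g (mem_of_mem_erase hg)) (fun g hg => hh g (mem_of_mem_erase hg))
          (fun g hg => hp g (mem_of_mem_erase hg)) hcase
        refine ⟨S, hS.trans (erase_subset _ _), h1, ?_⟩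
        set P' := ∑ g ∈ O.erase s, p g
        set V' := val u (O.erase s)
        have hc : P' * u s ≤ p s * V' := by
          rw [show V' = ∑ g ∈ O.erase s, u g from rfl, mul_sum, sum_mul]
          exact sum_le_sum fun g hg => hcross g (mem_of_mem_erase hg)
        rw [← hsumP, ← hsumV]
        rcases hP'0.eq_or_lt with hz | hpos'
        · have hw0 : w = 0 := le_antisymm (hcase.trans hz.symm.le) hw
          rw [hw0, zero_mul]
          have hS0 : 0 ≤ val u S :=
            sum_nonneg fun g hg => (hpos g (mem_of_mem_erase (hS hg))).le
          exact mul_nonneg (by linarith) (by linarith [hp s hs])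
        · have h3 : w * (u s + V') * P' ≤ (val u S + h) * (p s + P') * P' := by
            calc w * (u s + V') * P' = w * (P' * u s) + w * V' * P' := by ring
              _ ≤ w * (p s * V') + w * V' * P' := by
                  have := mul_le_mul_of_nonneg_left hc hw
                  linarith
              _ = w * V' * (p s + P') := by ring
              _ ≤ ((val u S + h) * P') * (p s + P') :=
                  mul_le_mul_of_nonneg_right h2 (by linarith [hp s hs])
              _ = (val u S + h) * (p s + P') * P' := by ring
          exact le_of_mul_le_mul_right h3 hpos'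
      · push Not at hcase
        refine ⟨O.erase s, erase_subset _ _, hcase.le, ?_⟩
        have h1 : val u O ≤ val u (O.erase s) + h := by linarith [hh s hs]
        have h2 : 0 ≤ val u O := by linarith [hpos s hs]
        calc w * val u O ≤ (∑ g ∈ O, p g) * val u O := mul_le_mul_of_nonneg_right hwO h2
          _ = val u O * ∑ g ∈ O, p g := by ring
          _ ≤ (val u (O.erase s) + h) * ∑ g ∈ O, p g :=
              mul_le_mul_of_nonneg_right h1 (by linarith [hp s hs])

/-- If the bundle `A` is far below the proportional share, then at all prices some affordable set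
is better than `A`. -/
lemma core {M : Type} [Fintype M] [DecidableEq M] (u : M → ℝ) (hu : ∀ g, 0 ≤ u g) (w : ℝ)
    (hw0 : 0 < w) (hw : w ≤ 1 / 2) (A : Finset M) (h1 : val u A < w * val u univ)
    (h2 : ∀ g, g ∉ A → val u (insert g A) < w * val u univ) (p : M → ℝ) (hp : IsPrice p) :
    ∃ S : Finset M, ∑ g ∈ S, p g ≤ w ∧ val u A < val u S := by
  by_contra hcon
  push Not at hcon
  have hA0 : 0 ≤ val u A := sum_nonneg fun g _ => hu g
  -- the positive items outside `A`
  set O : Finset M := univ.filter (fun g => g ∉ A ∧ 0 < u g) with hO
  have hsplit : val u univ = val u A + val u O := by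
    have e1 : val u univ = val u A + val u (univ \ A) := by
      unfold val
      rw [add_comm, sum_sdiff (subset_univ A)]
    have e2 : val u (univ \ A) = val u O := by
      unfold val
      symm
      apply sum_subset
      · intro g hg
        simp only [hO, mem_filter, mem_univ, true_and] at hg
        simp [hg.1]
      · intro g hg hg'
        simp only [mem_sdiff, mem_univ, true_and] at hg
        simp only [hO, mem_filter, mem_univ, true_and, not_and, not_lt] at hg'
        exact le_antisymm (hg' hg) (hu g)
    rw [e1, e2]
  have hOne : O.Nonempty := by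
    rw [nonempty_iff_ne_empty]
    intro he
    rw [he] at hsplit
    simp only [val, sum_empty, add_zero] at hsplit
    unfold val at h1 hA0
    rw [hsplit] at h1
    nlinarith
  obtain ⟨g0, hg0, hmax⟩ := exists_max_image O u hOne
  have hOpos : ∀ g ∈ O, 0 < u g := fun g hg => by
    simp only [hO, mem_filter] at hg; exact hg.2.2
  have hOA : ∀ g ∈ O, g ∉ A := fun g hg => by
    simp only [hO, mem_filter] at hg; exact hg.2.1
  have hh : 0 < u g0 := hOpos g0 hg0
  have hkey : val u A + u g0 < w * val u univ := by
    have := h2 g0 (hOA g0 hg0)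
    unfold val at this
    rw [sum_insert (hOA g0 hg0)] at this
    unfold val
    linarith
  set a := val u A
  set V := val u O
  rw [hsplit] at hkey
  -- `(1 - w) a + h < w V`
  have hk : (1 - w) * a + u g0 < w * V := by nlinarith
  have hVa : a < V := by nlinarith
  set P := ∑ g ∈ O, p g
  have hPA : P + ∑ g ∈ A, p g ≤ 1 := by
    rw [← hp.2, ← sum_union (disjoint_left.2 hOA)]
    exact sum_le_sum_of_subset_of_nonneg (subset_univ _) fun g _ _ => hp.1 g
  have hPw : w < P := by
    by_contra hle
    push Not at hle
    exact absurd (hcon O hle) (not_le.2 hVa)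
  obtain ⟨S, hSO, hS1, hS2⟩ := greedy u p (u g0) w hw0.le hh.le O hOpos hmax
    (fun g _ => hp.1 g) hPw.le
  have hSa : val u S ≤ a := hcon S hS1
  have hP0 : 0 < P := by linarith
  have hfin : (1 - w) * a + u g0 < (a + u g0) * P := by
    calc (1 - w) * a + u g0 < w * V := hk
      _ ≤ (val u S + u g0) * P := hS2
      _ ≤ (a + u g0) * P := mul_le_mul_of_nonneg_right (by linarith) hP0.le
  set r := w - ∑ g ∈ A, p g with hr
  have hPr : P ≤ 1 - w + r := by rw [hr]; linarith
  rcases le_or_gt r 0 with hr0 | hr0
  · have : (a + u g0) * P ≤ (a + u g0) * (1 - w) :=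
      mul_le_mul_of_nonneg_left (by linarith) (by linarith)
    nlinarith
  · have hpr : ∀ g ∈ O, r ≤ p g := by
      intro g hg
      by_contra hlt
      push Not at hlt
      have hc := hcon (insert g A) (by
        rw [sum_insert (hOA g hg)]
        rw [hr] at hlt
        linarith)
      have ha : a = ∑ x ∈ A, u x := rfl
      unfold val at hc
      rw [sum_insert (hOA g hg), ← ha] at hc
      linarith [hOpos g hg]
    have hkr : (O.card : ℝ) * r ≤ P := by
      have := card_nsmul_le_sum O p r hpr
      simpa using this
    have hkV : V ≤ (O.card : ℝ) * u g0 := by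
      have := sum_le_card_nsmul O u (u g0) hmax
      simpa [V, val] using this
    have hk1 : (1 : ℝ) ≤ O.card := by
      exact_mod_cast Nat.succ_le_of_lt (card_pos.2 hOne)
    set k : ℝ := (O.card : ℝ)
    -- `(k - 1) r ≤ 1 - w`
    have e1 : (k - 1) * r ≤ 1 - w := by nlinarith
    have e2 : (a + u g0) * P ≤ (a + u g0) * (1 - w + r) :=
      mul_le_mul_of_nonneg_left hPr (by linarith)
    have e3 : u g0 * (w - r) < r * a := by nlinarith
    have e4 : (1 - w) * a < (w * k - 1) * u g0 := by nlinarith
    have e5 : (k - 1) * (r * a) ≤ (1 - w) * a := by nlinarith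
    have e6 : (k - 1) * (u g0 * (w - r)) ≤ (k - 1) * (r * a) :=
      mul_le_mul_of_nonneg_left e3.le (by linarith)
    have e7 : (k - 1) * (w - r) * u g0 < (w * k - 1) * u g0 := by nlinarith
    have e8 : (k - 1) * (w - r) < w * k - 1 := lt_of_mul_lt_mul_right e7 hh.le
    nlinarith

lemma exists_best {M : Type} [Fintype M] (u : M → ℝ) (w : ℝ) (hw : 0 ≤ w) (p : M → ℝ) :
    ∃ z, IsBestValue u w p z := by
  classical
  have hne : (univ.filter (fun S : Finset M => ∑ g ∈ S, p g ≤ w)).Nonempty :=
    ⟨∅, by simpa using hw⟩
  obtain ⟨S, hS, hmax⟩ := exists_max_image _ (val u) hne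
  refine ⟨val u S, ⟨S, (mem_filter.1 hS).2, rfl⟩, ?_⟩
  rintro x ⟨T, hT, rfl⟩
  exact hmax T (mem_filter.2 ⟨mem_univ _, hT⟩)

lemma APS_gt {M : Type} [Fintype M] [DecidableEq M] (u : M → ℝ) (hu : ∀ g, 0 ≤ u g) (w : ℝ)
    (hw0 : 0 < w) (hw : w ≤ 1 / 2) (A : Finset M) (h1 : val u A < w * val u univ)
    (h2 : ∀ g, g ∉ A → val u (insert g A) < w * val u univ) : val u A < APS u w := by
  have hMne : Nonempty M := by
    by_contra hM
    rw [not_nonempty_iff] at hM
    have e1 : val u A = 0 := by
      unfold val; exact sum_eq_zero fun g _ => (hM.false g).elim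
    have e2 : val u (univ : Finset M) = 0 := by
      unfold val; exact sum_eq_zero fun g _ => (hM.false g).elim
    rw [e1, e2] at h1
    simp at h1
  have hprice : IsPrice (fun _ : M => 1 / (Fintype.card M : ℝ)) := by
    refine ⟨fun _ => by positivity, ?_⟩
    rw [sum_const, card_univ, nsmul_eq_mul]
    have : (Fintype.card M : ℝ) ≠ 0 := by exact_mod_cast Fintype.card_ne_zero
    field_simp
  -- the least value above `val u A`
  have hne : (univ.filter (fun S : Finset M => val u A < val u S)).Nonempty := by
    obtain ⟨S, _, hS⟩ := core u hu w hw0 hw A h1 h2 _ hprice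
    exact ⟨S, by simpa using hS⟩
  obtain ⟨T, hT, hmin⟩ := exists_min_image _ (val u) hne
  refine lt_of_lt_of_le (mem_filter.1 hT).2 ?_
  apply le_csInf
  · obtain ⟨z, hz⟩ := exists_best u w hw0.le (fun _ : M => 1 / (Fintype.card M : ℝ))
    exact ⟨z, _, hprice, hz⟩
  · rintro z ⟨p, hp, hz⟩
    obtain ⟨S, hS1, hS2⟩ := core u hu w hw0 hw A h1 h2 p hp
    exact (hmin S (mem_filter.2 ⟨mem_univ _, hS2⟩)).trans (hz.2 ⟨S, hS1, rfl⟩)

/-! ## The negative direction -/

/-- item values: `none` is the large item, worth `m + 1`, and there are `m + 1` items worth `1` -/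
def uval (m : ℕ) : Option (Fin (m + 1)) → ℝ
  | none => m + 1
  | some _ => 1

lemma APS_le {M : Type} [Fintype M] (u : M → ℝ) (w : ℝ) (hw : 0 ≤ w)
    (p : M → ℝ) (hp : IsPrice p) (c : ℝ)
    (hc : ∀ S : Finset M, ∑ g ∈ S, p g ≤ w → val u S ≤ c) : APS u w ≤ c := by
  obtain ⟨z, hz⟩ := exists_best u w hw p
  have hmem : z ∈ {z : ℝ | ∃ p : M → ℝ, IsPrice p ∧ IsBestValue u w p z} := ⟨p, hp, hz⟩
  refine le_trans (csInf_le ?_ hmem) ?_
  · refine ⟨0, ?_⟩
    rintro x ⟨q, _, hx⟩
    have := hx.2 ⟨∅, by simpa using hw, rfl⟩
    simpa [val] using this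
  · obtain ⟨S, hS, rfl⟩ := hz.1
    exact hc S hS

/-- `n ≥ 2` agents with entitlements `w`: every APS-fair allocation of every instance of additive
goods is PROP1 if and only if no entitlement is larger than `1/2`. -/
theorem result (n : ℕ) (hn : 2 ≤ n) (w : Fin n → ℝ) (hw : ∀ i, 0 < w i)
    (hsum : ∑ i, w i = 1) :
    (∀ (M : Type) [Fintype M] [DecidableEq M] (v : Fin n → M → ℝ), (∀ i g, 0 ≤ v i g) →
      ∀ A : M → Fin n, APSFair w v A → PROP1 w v A) ↔ ∀ i, w i ≤ 1 / 2 := by
  constructor
  · intro h i
    by_contra hlt
    push Not at hlt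
    -- choose the number of small items
    obtain ⟨m, hm⟩ := exists_nat_gt (1 / (2 * w i - 1))
    have hd : 0 < 2 * w i - 1 := by linarith
    have hm1 : 1 < (2 * w i - 1) * (m + 1) := by
      rw [div_lt_iff₀ hd] at hm
      nlinarith
    have hwi1 : w i < 1 := by
      obtain ⟨j, hj⟩ : ∃ j : Fin n, j ≠ i := by
        have : Nontrivial (Fin n) := Fin.nontrivial_iff_two_le.2 hn
        exact exists_ne i
      have h2 : w i + w j ≤ ∑ i, w i := by
        rw [← sum_pair hj.symm]
        exact sum_le_sum_of_subset_of_nonneg (subset_univ _) fun g _ _ => (hw g).le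
      linarith [hw j]
    obtain ⟨j, hj⟩ : ∃ j : Fin n, j ≠ i := by
      have : Nontrivial (Fin n) := Fin.nontrivial_iff_two_le.2 hn
      exact exists_ne i
    let v : Fin n → Option (Fin (m + 1)) → ℝ := fun k g => if k = i then uval m g else 0
    let A : Option (Fin (m + 1)) → Fin n := fun g => if g = none then i else j
    have hu : ∀ g, 0 ≤ uval m g := by
      intro g
      rcases g with _ | g
      · simp only [uval]; positivity
      · simp [uval]
    have hbun : bundle A i = {none} := by
      ext g
      simp only [bundle, mem_filter, mem_univ, true_and, mem_singleton, A]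
      split_ifs with hg
      · simp [hg]
      · simp [hg, hj]
    have hvi : v i = uval m := by funext g; simp [v]
    have hval1 : val (uval m) {none} = m + 1 := by simp [val, uval]
    have huniv : val (uval m) univ = 2 * (m + 1) := by
      unfold val
      rw [Fintype.sum_option]
      simp [uval]
      ring
    have hfair : APSFair w v A := by
      intro k
      by_cases hk : k = i
      · subst hk
        rw [hvi, hbun, hval1]
        -- the price of the large item is `(1 + w k) / 2 > w k`
        let p : Option (Fin (m + 1)) → ℝ := fun g =>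
          if g = none then (1 + w k) / 2 else (1 - w k) / 2 / (m + 1)
        have hp0 : ∀ g, 0 ≤ p g := by
          intro g
          simp only [p]
          split_ifs
          · linarith [hw k]
          · apply div_nonneg
            · linarith
            · positivity
        have hp : IsPrice p := by
          refine ⟨hp0, ?_⟩
          rw [Fintype.sum_option]
          simp only [p, if_true, reduceCtorEq, if_false, sum_const, card_univ, Fintype.card_fin,
            nsmul_eq_mul]
          push_cast
          field_simp
          ring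
        refine APS_le _ _ (hw k).le p hp _ ?_
        intro S hS
        have hnone : none ∉ S := by
          intro hmem
          have : p none ≤ ∑ g ∈ S, p g := single_le_sum (fun g _ => hp0 g) hmem
          simp only [p, if_true] at this
          linarith
        have hsub : S ⊆ univ.erase none := by
          intro g hg
          rw [mem_erase]
          exact ⟨fun h => hnone (h ▸ hg), mem_univ _⟩
        have h3 : val (uval m) S ≤ val (uval m) (univ.erase none) :=
          sum_le_sum_of_subset_of_nonneg hsub fun g _ _ => hu g
        have h4 : uval m none + val (uval m) (univ.erase none) = val (uval m) univ :=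
          add_sum_erase _ _ (mem_univ _)
        rw [huniv] at h4
        simp only [uval] at h4
        linarith
      · have hv0 : v k = fun _ => 0 := by funext g; simp [v, hk]
        rw [hv0]
        have hz : ∀ S : Finset (Option (Fin (m + 1))), val (fun _ => (0 : ℝ)) S = 0 := by
          intro S; simp [val]
        rw [hz]
        refine APS_le _ _ (hw k).le
          (fun g => if g = none then 1 else 0) ⟨?_, ?_⟩ _ ?_
        · intro g
          dsimp only
          split_ifs <;> norm_num
        · simp
        · intro S _
          rw [hz]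
    rcases h (Option (Fin (m + 1))) v (by
      intro k g
      simp only [v]
      split_ifs
      · exact hu g
      · exact le_refl _) A hfair i with h1 | ⟨g, hg, h1⟩
    · rw [hvi, hbun, hval1, huniv] at h1
      nlinarith
    · rw [hvi, hbun] at h1
      rw [hbun, mem_singleton] at hg
      have h5 : val (uval m) (insert g {none}) = m + 2 := by
        unfold val
        rw [sum_insert (by simpa using hg), sum_singleton]
        rcases g with _ | g
        · exact absurd rfl hg
        · simp [uval]; ring
      rw [h5, huniv] at h1
      nlinarith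
  · intro h M _ _ v hv A hfair i
    by_contra hcon
    push Not at hcon
    exact absurd (hfair i) (not_le.2 (APS_gt (v i) (hv i) (w i) (hw i) (h i) (bundle A i) hcon.1
      hcon.2))

end Pool.Agent.Results.MP_4956c5_co.APSImpliesPROP1
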